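import Pool.Agent.K6.H72.FV.Abs

/-!
# Interpolation and the number of the visits: combinatorial part
-/

set_option autoImplicit false

open scoped Topology
open Filter Set Metric

universe u

namespace Pool.Agent.K6.H72.IV

open Pool.Agent.K6.H72.FV

/-- the `j`-th smallest value is at least `d j` -/
theorem prod_le (d : ℕ → ℝ) (k : ℕ) (hd : ∀ j < k, 0 < d j) (ρ : ℕ → ℝ) :
    ∀ (p : ℕ) (J : Finset ℕ), J.card = p → p ≤ k → (∀ i ∈ J, 0 < ρ i) →
      (∀ j < k, (J.filter fun i => ρ i < d j).card ≤ j) →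
      ∏ j ∈ Finset.range p, d j ≤ ∏ i ∈ J, ρ i := by
  intro p
  induction p with
  | zero =>
    intro J hJ _ _ _
    rw [Finset.card_eq_zero.1 hJ]
    simp
  | succ p ih =>
    intro J hJ hpk hpos h
    have hne : J.Nonempty := by
      rw [← Finset.card_pos]
      omega
    obtain ⟨a, haJ, ha⟩ := Finset.exists_max_image J ρ hne
    have h1 : d p ≤ ρ a := by
      by_contra hlt
      push Not at hlt
      have h2 : J.filter (fun i => ρ i < d p) = J :=
        Finset.filter_true_of_mem fun i hi => (ha i hi).trans_lt hlt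
      have h3 := h p (by omega)
      rw [h2] at h3
      omega
    have h4 := ih (J.erase a) (by rw [Finset.card_erase_of_mem haJ]; omega) (by omega)
      (fun i hi => hpos i (Finset.mem_of_mem_erase hi)) (fun j hj => by
        refine le_trans (Finset.card_le_card ?_) (h j hj)
        exact Finset.filter_subset_filter _ (Finset.erase_subset a J))
    rw [Finset.prod_range_succ, ← Finset.mul_prod_erase J ρ haJ, mul_comm]
    exact mul_le_mul h1 h4 (Finset.prod_nonneg fun j hj => (hd j (by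
      rw [Finset.mem_range] at hj; omega)).le) (hpos a haJ).le

section
variable {N E : Type*} [NormedAddCommGroup E]

/-- the times of the visits at distance less than `d` of the initial point -/
def clo (F : N → N) (S : Set N) (χ : N → E) (w : N) (T : ℕ) (d : ℝ) : Set ℕ :=
  {i : ℕ | 0 < i ∧ i < T ∧ F^[i] w ∈ S ∧ ‖χ (F^[i] w) - χ w‖ < d}

lemma clo_finite (F : N → N) (S : Set N) (χ : N → E) (w : N) (T : ℕ) (d : ℝ) :
    (clo F S χ w T d).Finite :=
  (Set.finite_lt_nat T).subset fun _ hi => hi.2.1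

/-- the closing lemma with interpolation, in the negative form -/
def Star (F : N → N) (S : Set N) (χ : N → E) (k : ℕ) (κ : ℝ) : Prop :=
  ∀ (w : N) (D : ℝ) (T : ℕ) (J : Finset ℕ), w ∈ S → ‖χ w‖ < κ → 0 < D → D < κ →
    1 ≤ T → F^[T] w ∈ S → 4 * ‖χ (F^[T] w) - χ w‖ ≤ D → J.card ≤ k →
    (∀ i ∈ J, F^[i] w ∈ S ∧ 0 < ‖χ (F^[i] w) - χ w‖ ∧
      2 * ‖χ (F^[T] w) - χ w‖ ≤ ‖χ (F^[i] w) - χ w‖ ∧ ‖χ (F^[i] w) - χ w‖ ≤ D) →
    ‖χ (F^[T] w) - χ w‖ / D ^ k * ∏ i ∈ J, (D / ‖χ (F^[i] w) - χ w‖) < κ →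
    ∃ i, 0 < i ∧ i < T ∧ F^[i] w ∈ S ∧ i ∉ J ∧ ‖χ (F^[i] w) - χ w‖ < D

/-- The displacement is at least the product of the distances of the `k` nearest visits. -/
theorem prod_le_disp {F : N → N} {S : Set N} {χ : N → E} {k : ℕ} (hk : 1 ≤ k) {κ : ℝ}
    (hκ1 : κ ≤ 1) (h : Star F S χ k κ) {w : N} {T : ℕ} (hw : w ∈ S) (hwκ : ‖χ w‖ < κ)
    (hT : 1 ≤ T) (hTS : F^[T] w ∈ S) (d : ℕ → ℝ) (hd0 : ∀ j < k, 0 < d j)
    (hdm : ∀ j < k, ∀ j' < k, j ≤ j' → d j ≤ d j') (hdκ : ∀ j < k, d j < κ)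
    (hn : ∀ j < k, (clo F S χ w T (d j)).ncard ≤ j) :
    κ / 4 * ∏ j ∈ Finset.range k, d j ≤ ‖χ (F^[T] w) - χ w‖ := by
  classical
  have hκ : 0 < κ := (norm_nonneg _).trans_lt hwκ
  by_contra hlt
  push Not at hlt
  obtain ⟨δ, hδ⟩ : ∃ δ, δ = ‖χ (F^[T] w) - χ w‖ := ⟨_, rfl⟩
  have hδ0 : 0 ≤ δ := by rw [hδ]; exact norm_nonneg _
  rw [← hδ] at hlt
  obtain ⟨ρ, hρ⟩ : ∃ ρ : ℕ → ℝ, ρ = fun i => ‖χ (F^[i] w) - χ w‖ := ⟨_, rfl⟩
  have hρi : ∀ i, ‖χ (F^[i] w) - χ w‖ = ρ i := fun i => by rw [hρ]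
  have hfin := clo_finite F S χ w T (d (k - 1))
  obtain ⟨J, hJ⟩ : ∃ J : Finset ℕ, J = hfin.toFinset := ⟨_, rfl⟩
  have hJmem : ∀ i, i ∈ J ↔ (0 < i ∧ i < T ∧ F^[i] w ∈ S ∧ ρ i < d (k - 1)) := by
    intro i
    rw [hJ, Set.Finite.mem_toFinset]
    show (0 < i ∧ i < T ∧ F^[i] w ∈ S ∧ ‖χ (F^[i] w) - χ w‖ < d (k - 1)) ↔ _
    rw [hρi]
  have hJcard : J.card ≤ k - 1 := by
    rw [hJ, ← Set.ncard_eq_toFinset_card _ hfin]
    exact hn (k - 1) (by omega)
  have hk1 : k - 1 < k := by omega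
  have hfilter : ∀ j < k, (J.filter fun i => ρ i < d j).card ≤ j := by
    intro j hj
    refine le_trans ?_ (hn j hj)
    rw [Set.ncard_eq_toFinset_card _ (clo_finite F S χ w T (d j))]
    apply Finset.card_le_card
    intro i hi
    rw [Finset.mem_filter, hJmem] at hi
    rw [Set.Finite.mem_toFinset]
    refine ⟨hi.1.1, hi.1.2.1, hi.1.2.2.1, ?_⟩
    rw [hρi]
    exact hi.2
  have hρ0 : ∀ i ∈ J, d 0 ≤ ρ i := by
    intro i hi
    by_contra hc
    push Not at hc
    have h1 := hfilter 0 (by omega)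
    have h2 : i ∈ J.filter fun i => ρ i < d 0 := Finset.mem_filter.2 ⟨hi, hc⟩
    have h3 := Finset.card_pos.2 ⟨i, h2⟩
    omega
  have hd00 : 0 < d 0 := hd0 0 (by omega)
  have hρpos : ∀ i ∈ J, 0 < ρ i := fun i hi => hd00.trans_le (hρ0 i hi)
  -- `4 δ ≤ d 0`
  have hprod1 : ∏ j ∈ Finset.range k, d j ≤ d 0 := by
    obtain ⟨k', rfl⟩ : ∃ k', k = k' + 1 := ⟨k - 1, by omega⟩
    rw [Finset.prod_range_succ']
    have h1 : ∏ j ∈ Finset.range k', d (j + 1) ≤ 1 := by
      apply Finset.prod_le_one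
      · intro j hj
        rw [Finset.mem_range] at hj
        exact (hd0 (j + 1) (by omega)).le
      · intro j hj
        rw [Finset.mem_range] at hj
        exact ((hdκ (j + 1) (by omega)).trans_le hκ1).le
    calc (∏ j ∈ Finset.range k', d (j + 1)) * d 0 ≤ 1 * d 0 :=
          mul_le_mul_of_nonneg_right h1 hd00.le
      _ = d 0 := one_mul _
  have hprodpos : 0 < ∏ j ∈ Finset.range k, d j :=
    Finset.prod_pos fun j hj => hd0 j (Finset.mem_range.1 hj)
  have h4δ : 4 * δ ≤ d 0 := by nlinarith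
  have hD0 : 0 < d (k - 1) := hd0 _ hk1
  have hdD : d 0 ≤ d (k - 1) := hdm 0 (by omega) _ hk1 (by omega)
  -- the product bound
  have hbound : δ / d (k - 1) ^ k * ∏ i ∈ J, (d (k - 1) / ρ i) < κ := by
    have h1 := prod_le d k hd0 ρ J.card J rfl (by omega) hρpos hfilter
    have h2 : ∏ i ∈ J, (d (k - 1) / ρ i) = d (k - 1) ^ J.card / ∏ i ∈ J, ρ i := by
      rw [Finset.prod_div_distrib, Finset.prod_const]
    have h3 : 0 < ∏ j ∈ Finset.range J.card, d j :=
      Finset.prod_pos fun j hj => hd0 j (by rw [Finset.mem_range] at hj; omega)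
    have h4 : 0 < ∏ i ∈ J, ρ i := h3.trans_le h1
    -- the remaining factors
    have h5 : ∏ j ∈ Finset.range k, d j ≤
        (∏ j ∈ Finset.range J.card, d j) * d (k - 1) ^ (k - J.card) := by
      have h6 : ∀ q, J.card + q ≤ k → ∏ j ∈ Finset.range (J.card + q), d j ≤
          (∏ j ∈ Finset.range J.card, d j) * d (k - 1) ^ q := by
        intro q
        induction q with
        | zero => intro _; simp
        | succ q ih =>
          intro hq
          rw [← add_assoc, Finset.prod_range_succ, pow_succ, ← mul_assoc]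
          exact mul_le_mul (ih (by omega)) (hdm _ (by omega) _ hk1 (by omega))
            (hd0 _ (by omega)).le (by positivity)
      have h7 := h6 (k - J.card) (by omega)
      rwa [show J.card + (k - J.card) = k by omega] at h7
    rw [h2, div_mul_div_comm, div_lt_iff₀ (by positivity)]
    have e1 : d (k - 1) ^ k = d (k - 1) ^ (k - J.card) * d (k - 1) ^ J.card := by
      rw [← pow_add]
      congr 1
      omega
    have e2 : 0 < d (k - 1) ^ J.card := by positivity
    have e3 : 0 < d (k - 1) ^ (k - J.card) := by positivity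
    calc δ * d (k - 1) ^ J.card
        < (κ * ∏ j ∈ Finset.range k, d j) * d (k - 1) ^ J.card := by
          apply mul_lt_mul_of_pos_right _ e2
          nlinarith
      _ ≤ (κ * ((∏ j ∈ Finset.range J.card, d j) * d (k - 1) ^ (k - J.card))) *
            d (k - 1) ^ J.card := by
          apply mul_le_mul_of_nonneg_right _ e2.le
          exact mul_le_mul_of_nonneg_left h5 hκ.le
      _ ≤ (κ * ((∏ i ∈ J, ρ i) * d (k - 1) ^ (k - J.card))) * d (k - 1) ^ J.card := by
          apply mul_le_mul_of_nonneg_right _ e2.le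
          apply mul_le_mul_of_nonneg_left _ hκ.le
          exact mul_le_mul_of_nonneg_right h1 e3.le
      _ = κ * (d (k - 1) ^ k * ∏ i ∈ J, ρ i) := by rw [e1]; ring
  obtain ⟨i, h1, h2, h3, h4, h5⟩ := h w (d (k - 1)) T J hw hwκ hD0 (hdκ _ hk1) hT hTS
    (by rw [← hδ]; linarith) (by omega) (by
      intro i hi
      have h6 := (hJmem i).1 hi
      rw [hρi, ← hδ]
      exact ⟨h6.2.2.1, hρpos i hi, by have := hρ0 i hi; linarith, h6.2.2.2.le⟩) (by
      rw [← hδ]
      simp only [hρi]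
      exact hbound)
  rw [hρi] at h5
  exact h4 ((hJmem i).2 ⟨h1, h2, h3, h5⟩)

/-- The number of the visits is superadditive. -/
theorem visits_sum (F : N → N) (W : Set N) (w : N) (T : ℕ) (A : Set ℕ)
    (hA : ∀ i ∈ A, 0 < i ∧ i < T ∧ F^[i] w ∈ W) (a : ℝ)
    (h1 : ∀ i, (i ∈ A ∨ i = 0) → ∀ i' ∈ A, i < i' → a < visits F W (F^[i] w) (i' - i) + 1)
    (h2 : ∀ i ∈ A, a < visits F W (F^[i] w) (T - i) + 1) :
    ∀ (p : ℕ) (i₀ : ℕ), i₀ < T → (i₀ ∈ A ∨ (i₀ = 0 ∧ 1 ≤ p)) → p ≤ (A ∩ {i | i₀ < i}).ncard →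
      (p + 1) * a < visits F W (F^[i₀] w) (T - i₀) + 1 := by
  have hAf : A.Finite := (Set.finite_lt_nat T).subset fun i hi => (hA i hi).2.1
  intro p
  induction p with
  | zero =>
    intro i₀ _ h0 _
    rcases h0 with h0 | ⟨-, h0⟩
    · simpa using h2 i₀ h0
    · omega
  | succ p ih =>
    intro i₀ hi₀ h0 hcard
    have hfin : (A ∩ {i | i₀ < i}).Finite := hAf.inter_of_left _
    have hne : (A ∩ {i | i₀ < i}).Nonempty := by
      rw [← Set.ncard_pos hfin]
      omega
    classical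
    obtain ⟨i₁, hi₁, hmin⟩ : ∃ i₁ ∈ A ∩ {i | i₀ < i}, ∀ i ∈ A ∩ {i | i₀ < i}, i₁ ≤ i :=
      ⟨sInf (A ∩ {i | i₀ < i}), Nat.sInf_mem hne, fun i hi => Nat.sInf_le hi⟩
    have hsub : A ∩ {i | i₀ < i} ⊆ insert i₁ (A ∩ {i | i₁ < i}) := by
      intro i hi
      rcases (hmin i hi).lt_or_eq with h | h
      · exact Or.inr ⟨hi.1, h⟩
      · exact Or.inl h.symm
    have hc2 : p ≤ (A ∩ {i | i₁ < i}).ncard := by
      have h3 := Set.ncard_le_ncard hsub ((hAf.inter_of_left _).insert _)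
      have h4 := Set.ncard_insert_le i₁ (A ∩ {i | i₁ < i})
      omega
    obtain ⟨b1, b2, b3⟩ := hA i₁ hi₁.1
    have hlt : i₀ < i₁ := hi₁.2
    have h5 := ih i₁ b2 (Or.inl hi₁.1) hc2
    have h6 := h1 i₀ (h0.imp id fun h => h.1) i₁ hi₁.1 hlt
    have h7 := visits_split F W (F^[i₀] w) (i := i₁ - i₀) (T := T - i₀) (by omega) (by omega) (by
      rw [← Function.iterate_add_apply, show i₁ - i₀ + i₀ = i₁ by omega]
      exact b3)
    rw [← Function.iterate_add_apply, show i₁ - i₀ + i₀ = i₁ by omega,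
      show T - i₀ - (i₁ - i₀) = T - i₁ by omega] at h7
    have h8 : (visits F W (F^[i₀] w) (i₁ - i₀) : ℝ) + 1 + visits F W (F^[i₁] w) (T - i₁) ≤
        visits F W (F^[i₀] w) (T - i₀) := by exact_mod_cast h7
    push_cast
    linarith

set_option maxHeartbeats 4000000 in
/-- The main estimate. -/
theorem lower_bound {F : N → N} {S W : Set N} {χ : N → E} {k : ℕ} (hk : 1 ≤ k) {κ ε : ℝ}
    (hκ1 : κ ≤ 1) (hε : 0 < ε) (hεκ : ε ≤ κ) (hW : ∀ y ∈ S, ‖χ y‖ < ε → y ∈ W)
    (hstar : Star F S χ k κ) {x : ℝ} (hx : 0 < x)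
    (hθ : ∑ j ∈ Finset.range k, ((j : ℝ) + 2) ^ (-x) < 1) :
    ∃ C : ℝ, 0 < C ∧ ∀ (w : N) (T : ℕ), w ∈ S → ‖χ w‖ < ε / 2 → 1 ≤ T → F^[T] w ∈ S →
      Real.exp (-(C * ((visits F W w T : ℝ) + 1) ^ x)) ≤ ‖χ (F^[T] w) - χ w‖ := by
  have hκ : 0 < κ := by linarith
  obtain ⟨θ, hθd⟩ : ∃ θ, θ = ∑ j ∈ Finset.range k, ((j : ℝ) + 2) ^ (-x) := ⟨_, rfl⟩
  rw [← hθd] at hθ
  have hterm0 : ∀ j : ℕ, 0 < ((j : ℝ) + 2) ^ (-x) := fun j => Real.rpow_pos_of_pos (by positivity) _
  have hterm : ∀ j < k, ((j : ℝ) + 2) ^ (-x) ≤ θ := by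
    intro j hj
    rw [hθd]
    exact Finset.single_le_sum (f := fun j : ℕ => ((j : ℝ) + 2) ^ (-x)) (fun i _ => (hterm0 i).le)
      (Finset.mem_range.2 hj)
  have htermk : ∀ j < k, ((k : ℝ) + 1) ^ (-x) ≤ ((j : ℝ) + 2) ^ (-x) := by
    intro j hj
    apply Real.rpow_le_rpow_of_nonpos (by positivity) _ (by linarith)
    have : (j : ℝ) + 1 ≤ k := by exact_mod_cast hj
    linarith
  -- constants
  obtain ⟨Λ, hΛ1, hΛ2, hΛ3⟩ : ∃ Λ : ℝ, Real.log 2 ≤ Λ ∧ Real.exp (-Λ) ≤ ε / 4 ∧
      Real.exp (-Λ) < κ := by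
    have h1 : Real.exp (-(Real.log 2 + |Real.log (ε / 4)| + 1)) ≤ ε / 4 := by
      rw [← Real.le_log_iff_exp_le (by positivity)]
      have := neg_abs_le (Real.log (ε / 4))
      have := Real.log_nonneg (show (1:ℝ) ≤ 2 by norm_num)
      linarith
    refine ⟨Real.log 2 + |Real.log (ε / 4)| + 1, ?_, h1, by linarith⟩
    have := abs_nonneg (Real.log (ε / 4))
    linarith
  have hlog2 : 0 < Real.log 2 := Real.log_pos (by norm_num)
  have hΛ0 : 0 < Λ := by linarith
  have hkx : 0 < ((k : ℝ) + 1) ^ (-x) := Real.rpow_pos_of_pos (by positivity) _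
  obtain ⟨C, hC0, hC1, hC2⟩ : ∃ C : ℝ, 0 < C ∧ k * Λ - Real.log (κ / 4) ≤ (1 - θ) * C ∧
      2 / x ≤ ((k : ℝ) + 1) ^ (-x) * C := by
    refine ⟨1 + |k * Λ - Real.log (κ / 4)| / (1 - θ) + 2 / x / ((k : ℝ) + 1) ^ (-x), ?_, ?_, ?_⟩
    · have h1 : 0 < 1 - θ := by linarith
      positivity
    · have h1 : 0 < 1 - θ := by linarith
      have h2 : (1 - θ) * (1 + |k * Λ - Real.log (κ / 4)| / (1 - θ) +
          2 / x / ((k : ℝ) + 1) ^ (-x)) = (1 - θ) + |k * Λ - Real.log (κ / 4)| +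
            (1 - θ) * (2 / x / ((k : ℝ) + 1) ^ (-x)) := by
        field_simp
      rw [h2]
      have h3 := le_abs_self (k * Λ - Real.log (κ / 4))
      have h4 : 0 < (1 - θ) * (2 / x / ((k : ℝ) + 1) ^ (-x)) := by positivity
      linarith
    · have h1 : 0 < 1 - θ := by linarith
      have h2 : ((k : ℝ) + 1) ^ (-x) * (1 + |k * Λ - Real.log (κ / 4)| / (1 - θ) +
          2 / x / ((k : ℝ) + 1) ^ (-x)) = ((k : ℝ) + 1) ^ (-x) *
            (1 + |k * Λ - Real.log (κ / 4)| / (1 - θ)) + 2 / x := by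
        rw [mul_add]
        congr 1
        field_simp
      rw [h2]
      have : 0 < ((k : ℝ) + 1) ^ (-x) * (1 + |k * Λ - Real.log (κ / 4)| / (1 - θ)) := by positivity
      linarith
  have hlogκ : Real.log (κ / 4) ≤ 0 := Real.log_nonpos (by positivity) (by linarith)
  have hk' : (1 : ℝ) ≤ k := by exact_mod_cast hk
  refine ⟨C, hC0, ?_⟩
  -- the induction
  have main : ∀ (T : ℕ) (w : N), w ∈ S →
      ‖χ w‖ < ε / 2 * (1 + 1 / ((visits F W w T : ℝ) + 1 + 1)) → 1 ≤ T → F^[T] w ∈ S →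
      Real.exp (-(C * ((visits F W w T : ℝ) + 1) ^ x)) ≤ ‖χ (F^[T] w) - χ w‖ := by
    intro T
    induction T using Nat.strong_induction_on with
    | _ T ih =>
    intro w hw hwn hT hTS
    by_contra hlt
    push Not at hlt
    obtain ⟨v, hv⟩ : ∃ v : ℕ, v = visits F W w T := ⟨_, rfl⟩
    rw [← hv] at hwn hlt
    obtain ⟨y, hy⟩ : ∃ y : ℝ, y = (v : ℝ) + 1 := ⟨_, rfl⟩
    rw [← hy] at hwn hlt
    have hy1 : 1 ≤ y := by
      rw [hy]
      have : (0 : ℝ) ≤ v := Nat.cast_nonneg v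
      linarith
    have hy0 : 0 < y := by linarith
    have hyx : 1 ≤ y ^ x := Real.one_le_rpow hy1 hx.le
    obtain ⟨L, hL⟩ : ∃ L : ℝ, L = C * y ^ x := ⟨_, rfl⟩
    rw [← hL] at hlt
    have hLC : C ≤ L := by rw [hL]; nlinarith
    have hL0 : 0 < L := hC0.trans_le hLC
    have hθL : k * Λ - Real.log (κ / 4) ≤ (1 - θ) * L :=
      hC1.trans (mul_le_mul_of_nonneg_left hLC (by linarith))
    obtain ⟨d, hd⟩ : ∃ d : ℕ → ℝ, ∀ j, d j = Real.exp (-(((j : ℝ) + 2) ^ (-x) * L + Λ)) :=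
      ⟨_, fun _ => rfl⟩
    have hd0 : ∀ j, 0 < d j := fun j => by rw [hd]; exact Real.exp_pos _
    have hdΛ : ∀ j, d j ≤ Real.exp (-Λ) := by
      intro j
      rw [hd]
      apply Real.exp_le_exp.2
      have := mul_pos (hterm0 j) hL0
      linarith
    have hyε : ε / 2 * (1 + 1 / (y + 1)) ≤ 3 / 4 * ε := by
      have : 1 / (y + 1) ≤ 1 / 2 := one_div_le_one_div_of_le (by norm_num) (by linarith)
      nlinarith
    have hwε : ‖χ w‖ < ε := hwn.trans_le (by linarith)
    have hex : ∃ j < k, j + 1 ≤ (clo F S χ w T (d j)).ncard := by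
      by_contra hno
      push Not at hno
      have h1 := prod_le_disp hk hκ1 hstar hw (hwε.trans_le hεκ) hT hTS d (fun j _ => hd0 j)
        (by
          intro j _ j' _ hjj'
          rw [hd, hd]
          apply Real.exp_le_exp.2
          have h2 : ((j' : ℝ) + 2) ^ (-x) ≤ ((j : ℝ) + 2) ^ (-x) := by
            apply Real.rpow_le_rpow_of_nonpos (by positivity) _ (by linarith)
            have : (j : ℝ) ≤ j' := by exact_mod_cast hjj'
            linarith
          nlinarith)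
        (fun j _ => (hdΛ j).trans_lt hΛ3)
        (fun j hj => by have := hno j hj; omega)
      have h2 : ∏ j ∈ Finset.range k, d j = Real.exp (-(θ * L + k * Λ)) := by
        rw [Finset.prod_congr rfl fun j _ => hd j, ← Real.exp_sum, Finset.sum_neg_distrib,
          Finset.sum_add_distrib, ← Finset.sum_mul, ← hθd]
        simp
      rw [h2] at h1
      have h3 : κ / 4 * Real.exp (-(θ * L + k * Λ)) = Real.exp (Real.log (κ / 4) -
          (θ * L + k * Λ)) := by
        rw [sub_eq_add_neg, Real.exp_add, Real.exp_log (by positivity)]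
      rw [h3] at h1
      have h4 := h1.trans_lt hlt
      rw [Real.exp_lt_exp] at h4
      linarith
    obtain ⟨j, hjk, hj⟩ := hex
    -- the visits
    have hdj : d j ≤ ε / 4 / y ^ 2 := by
      have h1 : d j = Real.exp (-(((j : ℝ) + 2) ^ (-x) * L)) * Real.exp (-Λ) := by
        rw [hd, ← Real.exp_add]
        congr 1
        ring
      have h2 : Real.exp (-(((j : ℝ) + 2) ^ (-x) * L)) ≤ (y ^ 2)⁻¹ := by
        rw [← Real.exp_log (show 0 < (y ^ 2)⁻¹ by positivity), Real.log_inv, Real.log_pow]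
        apply Real.exp_le_exp.2
        apply neg_le_neg
        have h3 := Real.log_le_rpow_div hy0.le hx
        have h4 : ((k : ℝ) + 1) ^ (-x) * L ≤ ((j : ℝ) + 2) ^ (-x) * L :=
          mul_le_mul_of_nonneg_right (htermk j hjk) hL0.le
        have h5 : 2 / x * y ^ x ≤ ((k : ℝ) + 1) ^ (-x) * L := by
          rw [hL, ← mul_assoc]
          exact mul_le_mul_of_nonneg_right hC2 (by positivity)
        push_cast
        calc 2 * Real.log y ≤ 2 * (y ^ x / x) := by linarith
          _ = 2 / x * y ^ x := by ring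
          _ ≤ _ := h5.trans h4
      rw [h1]
      calc Real.exp (-(((j : ℝ) + 2) ^ (-x) * L)) * Real.exp (-Λ)
          ≤ (y ^ 2)⁻¹ * (ε / 4) := mul_le_mul h2 hΛ2 (Real.exp_pos _).le (by positivity)
        _ = ε / 4 / y ^ 2 := by ring
    obtain ⟨A, hAd⟩ : ∃ A : Set ℕ, A = clo F S χ w T (d j) := ⟨_, rfl⟩
    rw [← hAd] at hj
    have hreg : ε / 2 * (1 + 1 / (y + 1)) + d j ≤ ε / 2 * (1 + 1 / y) := by
      have h1 : 1 / y - 1 / (y + 1) = 1 / (y * (y + 1)) := by
        field_simp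
        ring
      have h2 : 1 / (2 * y ^ 2) ≤ 1 / (y * (y + 1)) := by
        apply one_div_le_one_div_of_le (by positivity)
        nlinarith
      have h3 : ε / 4 / y ^ 2 = ε / 2 * (1 / (2 * y ^ 2)) := by
        field_simp
        ring
      rw [h3] at hdj
      have h4 : ε / 2 * (1 / (2 * y ^ 2)) ≤ ε / 2 * (1 / y - 1 / (y + 1)) := by
        rw [h1]
        exact mul_le_mul_of_nonneg_left h2 (by positivity)
      linarith
    have hAS : ∀ i ∈ A, 0 < i ∧ i < T ∧ F^[i] w ∈ S ∧ ‖χ (F^[i] w) - χ w‖ < d j := by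
      intro i hi
      rw [hAd] at hi
      exact hi
    have hnear : ∀ i ∈ A, ‖χ (F^[i] w)‖ < ε / 2 * (1 + 1 / (y + 1)) + d j := by
      intro i hi
      have h1 := norm_sub_norm_le (χ (F^[i] w)) (χ w)
      have h2 := (hAS i hi).2.2.2
      linarith
    have hAW : ∀ i ∈ A, 0 < i ∧ i < T ∧ F^[i] w ∈ W := by
      intro i hi
      obtain ⟨h1, h2, h3, -⟩ := hAS i hi
      refine ⟨h1, h2, hW _ h3 ((hnear i hi).trans_le ?_)⟩
      have : d j ≤ ε / 4 := (hdΛ j).trans hΛ2
      linarith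
    -- displacements of at most `2 d j`
    have hfin : ∀ v' : ℕ, Real.exp (-(C * ((v' : ℝ) + 1) ^ x)) < 2 * d j →
        y / ((j : ℝ) + 2) < v' + 1 := by
      intro v' h
      have h1 : 2 * d j = Real.exp (Real.log 2 - (((j : ℝ) + 2) ^ (-x) * L + Λ)) := by
        rw [hd, sub_eq_add_neg, Real.exp_add, Real.exp_log (by norm_num)]
      rw [h1, Real.exp_lt_exp] at h
      have h2 : ((j : ℝ) + 2) ^ (-x) * L < C * ((v' : ℝ) + 1) ^ x := by linarith
      have h3 : ((j : ℝ) + 2) ^ (-x) * L = C * (y / ((j : ℝ) + 2)) ^ x := by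
        rw [hL, Real.div_rpow hy0.le (by positivity), Real.rpow_neg (by positivity)]
        ring
      rw [h3] at h2
      have h4 := lt_of_mul_lt_mul_left h2 hC0.le
      exact (Real.rpow_lt_rpow_iff (by positivity) (by positivity) hx).1 h4
    have hnear0 : ∀ i, (i ∈ A ∨ i = 0) → F^[i] w ∈ S ∧ ‖χ (F^[i] w) - χ w‖ < d j ∧
        ‖χ (F^[i] w)‖ < ε / 2 * (1 + 1 / y) := by
      rintro i (hi | hi)
      · exact ⟨(hAS i hi).2.2.1, (hAS i hi).2.2.2, (hnear i hi).trans_le hreg⟩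
      · subst hi
        refine ⟨hw, ?_, ?_⟩
        · simpa using hd0 j
        · have := hd0 j
          simp only [Function.iterate_zero, id_eq]
          linarith
    -- the region
    have hreg2 : ∀ (w' : N) (T' : ℕ), visits F W w' T' + 1 ≤ v → ‖χ w'‖ < ε / 2 * (1 + 1 / y) →
        ‖χ w'‖ < ε / 2 * (1 + 1 / ((visits F W w' T' : ℝ) + 1 + 1)) := by
      intro w' T' h1 h2
      refine h2.trans_le ?_
      have h3 : (visits F W w' T' : ℝ) + 1 ≤ v := by exact_mod_cast h1
      have h4 : 1 / y ≤ 1 / ((visits F W w' T' : ℝ) + 1 + 1) := by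
        apply one_div_le_one_div_of_le (by positivity)
        linarith
      have : ε / 2 * (1 + 1 / y) ≤ ε / 2 * (1 + 1 / ((visits F W w' T' : ℝ) + 1 + 1)) :=
        mul_le_mul_of_nonneg_left (by linarith) (by positivity)
      exact this
    have key := visits_sum F W w T A hAW (y / ((j : ℝ) + 2))
      (by
        intro i hi i' hi' hii'
        obtain ⟨a1, a2, a3⟩ := hnear0 i hi
        obtain ⟨b1, b2, b3⟩ := hnear0 i' (Or.inl hi')
        obtain ⟨c1, c2, c3⟩ := hAW i' hi'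
        have hT' : i' - i + i = i' := by omega
        have hvis : visits F W (F^[i] w) (i' - i) + 1 ≤ v := by
          rw [hv]
          rcases hi with hi | hi
          · have d1 := visits_split F W w (hAW i hi).1 (hAW i hi).2.1 (hAW i hi).2.2
            have d2 := visits_split F W (F^[i] w) (i := i' - i) (T := T - i) (by omega) (by omega)
              (by rw [← Function.iterate_add_apply, hT']; exact c3)
            omega
          · subst hi
            have d1 := visits_split F W w c1 c2 c3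
            simp only [Function.iterate_zero, id_eq, Nat.sub_zero]
            omega
        have h1 := ih (i' - i) (by omega) (F^[i] w) a1 (hreg2 _ _ hvis a3) (by omega)
          (by rw [← Function.iterate_add_apply, hT']; exact b1)
        apply hfin
        refine h1.trans_lt ?_
        rw [← Function.iterate_add_apply, hT']
        have h2 := norm_sub_le (χ (F^[i'] w) - χ w) (χ (F^[i] w) - χ w)
        rw [sub_sub_sub_cancel_right] at h2
        linarith)
      (by
        intro i hi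
        obtain ⟨a1, a2, a3⟩ := hnear0 i (Or.inl hi)
        obtain ⟨c1, c2, c3⟩ := hAW i hi
        have hT' : T - i + i = T := by omega
        have hvis : visits F W (F^[i] w) (T - i) + 1 ≤ v := by
          rw [hv]
          have d1 := visits_split F W w c1 c2 c3
          omega
        have h1 := ih (T - i) (by omega) (F^[i] w) a1 (hreg2 _ _ hvis a3) (by omega)
          (by rw [← Function.iterate_add_apply, hT']; exact hTS)
        apply hfin
        refine h1.trans_lt ?_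
        rw [← Function.iterate_add_apply, hT']
        have h2 := norm_sub_le (χ (F^[T] w) - χ w) (χ (F^[i] w) - χ w)
        rw [sub_sub_sub_cancel_right] at h2
        have h3 : Real.exp (-L) ≤ d j := by
          rw [hd]
          apply Real.exp_le_exp.2
          have h4 := mul_le_mul_of_nonneg_right (hterm j hjk) hL0.le
          have h5 : Λ ≤ k * Λ := by nlinarith
          nlinarith
        linarith)
      (j + 1) 0 (by omega) (Or.inr ⟨rfl, by omega⟩) (by
        have h1 : A ∩ {i | 0 < i} = A := by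
          apply Set.inter_eq_left.2
          intro i hi
          exact (hAW i hi).1
        rw [h1]
        exact hj)
    simp only [Function.iterate_zero, id_eq, Nat.sub_zero] at key
    rw [← hv, ← hy] at key
    push_cast at key
    have h9 : ((j : ℝ) + 1 + 1) * (y / ((j : ℝ) + 2)) = y := by
      field_simp
      ring
    rw [h9] at key
    exact lt_irrefl _ key
  intro w T hw hwn hT hTS
  refine main T w hw (hwn.trans_le ?_) hT hTS
  have : 0 ≤ 1 / ((visits F W w T : ℝ) + 1 + 1) := by positivity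
  nlinarith

end

end Pool.Agent.K6.H72.IV
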