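import Pool.Agent.K6.H72.IV.Int

/-!
# Closing with perturbations which vanish at the intermediate visits
-/

set_option autoImplicit false

open scoped Manifold ContDiff Topology
open Filter Set Metric

universe u

namespace Pool.Agent.K6.H72.IV

open Pool.Agent.H718R2.G Pool.Agent.W564.SC Pool.Agent.W597.SC

theorem cli0 {n : ℕ} {N : Type u} [TopologicalSpace N] [T2Space N] [CompactSpace N]
    [ChartedSpace (V n) N] [IsManifold (𝓡 n) ∞ N] (r : ℕ∞) (hr : 1 ≤ r)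
    (P : Type) [NormedAddCommGroup P] [NormedSpace ℝ P] (H : P → DiffM n N r) (hH : IsFam n N r H)
    (χ : OpenPartialHomeomorph N (V n)) (z : N) (hχ : GoodChart n N χ z)
    (U : Set (DiffM n N r)) (hU : IsOpen[strongTop n N r] U) (hHU : H 0 ∈ U) :
    ∃ k : ℕ, 1 ≤ k ∧ (k : ℕ∞) ≤ r ∧ ∃ κ : ℝ, 0 < κ ∧
      ∀ (s : P) (D : ℝ) (m : ℕ) (J : Finset ℕ), ‖s‖ < κ → 0 < D → D < κ → 1 ≤ m →
        (H s)^[m] z ∈ χ.source → 4 * ‖χ ((H s)^[m] z)‖ ≤ D → J.card ≤ k →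
        (∀ i ∈ J, 0 < ‖χ ((H s)^[i] z)‖ ∧ 2 * ‖χ ((H s)^[m] z)‖ ≤ ‖χ ((H s)^[i] z)‖ ∧
          ‖χ ((H s)^[i] z)‖ ≤ D) →
        ‖χ ((H s)^[m] z)‖ / D ^ k * ∏ i ∈ J, (D / ‖χ ((H s)^[i] z)‖) < κ →
        (∀ i, 0 < i → i < m → (H s)^[i] z ∈ χ.source → i ∉ J → D ≤ ‖χ ((H s)^[i] z)‖) →
        ∃ G ∈ U, IsPer G z := by
  obtain ⟨k, hk1, hkr, κ₀, hκ₀, hN⟩ := t_NBHD n N r hr P H hH χ z hχ U hU hHU
  obtain ⟨C, hC, hB⟩ := bumpI n k
  refine ⟨k, hk1, hkr, min (min κ₀ (1 / 4)) (min (κ₀ / C) (1 / (2 * C))), by positivity, ?_⟩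
  intro s D m J hs hD hDκ hm hsrc hw hJ hJq hprod hi
  set κ := min (min κ₀ (1 / 4)) (min (κ₀ / C) (1 / (2 * C))) with hκ
  have k1 : κ ≤ κ₀ := (min_le_left _ _).trans (min_le_left _ _)
  have k2 : κ ≤ 1 / 4 := (min_le_left _ _).trans (min_le_right _ _)
  have k3 : κ ≤ κ₀ / C := (min_le_right _ _).trans (min_le_left _ _)
  have k4 : κ ≤ 1 / (2 * C) := (min_le_right _ _).trans (min_le_right _ _)
  obtain ⟨u, hu, huw, huq, hu0⟩ := hB D hD (by linarith) _ hw J (fun i => χ ((H s)^[i] z)) hJ hJq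
  obtain ⟨Z, hZ⟩ : ∃ Z : ℝ, Z = ‖χ ((H s)^[m] z)‖ / D ^ k * ∏ i ∈ J, (D / ‖χ ((H s)^[i] z)‖) :=
    ⟨_, rfl⟩
  rw [← hZ] at hu hprod
  have hc1 : C * Z ≤ κ₀ := by
    calc C * Z ≤ C * (κ₀ / C) := mul_le_mul_of_nonneg_left (hprod.le.trans k3) hC.le
      _ = κ₀ := by field_simp
  have hc2 : C * Z ≤ 1 / 2 := by
    calc C * Z ≤ C * (1 / (2 * C)) := mul_le_mul_of_nonneg_left (hprod.le.trans k4) hC.le
      _ = 1 / 2 := by field_simp
  obtain ⟨Θ, hΘ⟩ := Pool.Agent.W428.SC.push n N r χ z hχ u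
    (Pool.Agent.W74.SC.small_mono hu hk1 hc2)
  have hGU := hN s u Θ (lt_of_lt_of_le hs k1) (Pool.Agent.W74.SC.small_mono hu le_rfl hc1) hΘ
  refine ⟨(H s).trans Θ, hGU, m, hm, ?_⟩
  have hG : ∀ y, ((H s).trans Θ) y = Θ (H s y) := fun y => rfl
  have key : ∀ i, i < m → (⇑((H s).trans Θ))^[i] z = (H s)^[i] z := by
    intro i
    induction i with
    | zero => intro _; rfl
    | succ i ih =>
      intro him
      rw [Function.iterate_succ_apply', ih (by omega), hG, ← Function.iterate_succ_apply' (H s)]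
      by_cases hy : (H s)^[i + 1] z ∈ χ.source
      · obtain ⟨a, b⟩ := hΘ.1 _ hy
        have hz0 : u (χ ((H s)^[i + 1] z)) = 0 := by
          by_cases hiJ : i + 1 ∈ J
          · exact huq _ hiJ
          · exact hu0 _ (hi (i + 1) (Nat.succ_pos i) him hy hiJ)
        rw [hz0, add_zero] at b
        exact χ.injOn a hy b
      · exact hΘ.2 _ hy
  obtain ⟨m', rfl⟩ : ∃ m', m = m' + 1 := ⟨m - 1, by omega⟩
  rw [Function.iterate_succ_apply', key m' (by omega), hG, ← Function.iterate_succ_apply' (H s)]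
  obtain ⟨a, b⟩ := hΘ.1 _ hsrc
  rw [huw, add_neg_cancel, ← hχ.zero] at b
  exact χ.injOn a hχ.src b

/-- **Closing with interpolation**: the perturbation vanishes at at most `k` intermediate visits, the
other ones are outside of its support. -/
theorem cli {n : ℕ} {N : Type u} [TopologicalSpace N] [T2Space N] [CompactSpace N]
    [ChartedSpace (V n) N] [IsManifold (𝓡 n) ∞ N] (r : ℕ∞) (hr : 1 ≤ r) (F : DiffM n N r)
    (χ : OpenPartialHomeomorph N (V n)) (z : N) (hχ : GoodChart n N χ z)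
    (U : Set (DiffM n N r)) (hU : IsOpen[strongTop n N r] U) (hHU : F ∈ U) :
    ∃ k : ℕ, 1 ≤ k ∧ (k : ℕ∞) ≤ r ∧ ∃ κ : ℝ, 0 < κ ∧
      ∀ (z' : N) (D : ℝ) (m : ℕ) (J : Finset ℕ), z' ∈ χ.source → ‖χ z'‖ < κ → 0 < D → D < κ →
        1 ≤ m → F^[m] z' ∈ χ.source → 4 * ‖χ (F^[m] z') - χ z'‖ ≤ D → J.card ≤ k →
        (∀ i ∈ J, F^[i] z' ∈ χ.source ∧ 0 < ‖χ (F^[i] z') - χ z'‖ ∧
          2 * ‖χ (F^[m] z') - χ z'‖ ≤ ‖χ (F^[i] z') - χ z'‖ ∧ ‖χ (F^[i] z') - χ z'‖ ≤ D) →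
        ‖χ (F^[m] z') - χ z'‖ / D ^ k * ∏ i ∈ J, (D / ‖χ (F^[i] z') - χ z'‖) < κ →
        (∀ i, 0 < i → i < m → F^[i] z' ∈ χ.source → i ∉ J → D ≤ ‖χ (F^[i] z') - χ z'‖) →
        ∃ G ∈ U, IsPer G z := by
  obtain ⟨Ψ, κ₂, hκ₂, hΨ0, hΨs, hΨi, hΨ⟩ := Pool.Agent.W782.SC.psi n N r χ z hχ
  have hfam : IsFam n N r (fun _ : ℝ => F) := by
    intro y
    exact F.contMDiff.contMDiffAt.comp _ contMDiffAt_snd
  obtain ⟨H, hHdef⟩ : ∃ H : ℝ → DiffM n N r, H = fun _ => F := ⟨_, rfl⟩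
  have hH : IsFam n N r H := by rw [hHdef]; exact hfam
  have hHF : ∀ s, H s = F := fun s => by rw [hHdef]
  have h0 : conjF H Ψ (0 : ℝ × V n) = H 0 := by
    apply Diffeomorph.ext
    intro y
    rw [conjF_apply]
    show (Ψ 0).symm (H 0 (Ψ 0 y)) = H 0 y
    rw [hΨ0]
    apply (Ψ 0).injective
    show Ψ 0 ((Ψ 0).symm (H 0 y)) = Ψ 0 (H 0 y)
    rw [(Ψ 0).apply_symm_apply, hΨ0]
  obtain ⟨k, hk1, hk, κ₁, hκ₁, hc⟩ := cli0 (n := n) (N := N) r hr (ℝ × V n) (conjF H Ψ)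
    (isFam_conjF H Ψ hH hΨ0 hΨs hΨi) χ z hχ U hU (by rw [h0, hHF]; exact hHU)
  refine ⟨k, hk1, hk, min (min κ₁ κ₂) (1 / 8), by positivity, ?_⟩
  intro z' D m J hz' hz'κ hD hDκ hm hret hclose hJ hJq hprod havoid
  set κ : ℝ := min (min κ₁ κ₂) (1 / 8) with hκdef
  have hκ0 : 0 < κ := by rw [hκdef]; positivity
  have hκ1 : κ ≤ κ₁ := (min_le_left _ _).trans (min_le_left _ _)
  have hκ2 : κ ≤ κ₂ := (min_le_left _ _).trans (min_le_right _ _)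
  have hκ8 : κ ≤ 1 / 8 := min_le_right _ _
  set v : V n := χ z' with hv
  have hvκ2 : ‖v‖ < κ₂ := hz'κ.trans_le hκ2
  -- the translation takes `z` to `z'`
  have hzz' : Ψ v z = z' := by
    have hz4 : ‖χ z‖ < 1 / 4 := by rw [hχ.zero, norm_zero]; norm_num
    obtain ⟨m1, m2⟩ := hΨ v hvκ2 z hχ.src hz4
    apply χ.injOn m1 hz'
    rw [m2, hχ.zero, zero_add]
  -- inverse images
  have hinv : ∀ w ∈ χ.source, ‖χ w - v‖ < 1 / 4 →
      (Ψ v).symm w ∈ χ.source ∧ χ ((Ψ v).symm w) = χ w - v := by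
    intro w hw hw4
    have ht : χ w - v ∈ χ.target := by
      apply hχ.ball
      rw [mem_closedBall, dist_zero_right]
      linarith
    have hys : χ.symm (χ w - v) ∈ χ.source := χ.map_target ht
    have hχy : χ (χ.symm (χ w - v)) = χ w - v := χ.right_inv ht
    obtain ⟨m1, m2⟩ := hΨ v hvκ2 (χ.symm (χ w - v)) hys (by rw [hχy]; exact hw4)
    have e1 : Ψ v (χ.symm (χ w - v)) = w := by
      apply χ.injOn m1 hw
      rw [m2, hχy, sub_add_cancel]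
    have e2 : (Ψ v).symm w = χ.symm (χ w - v) := by
      apply (Ψ v).injective
      show Ψ v ((Ψ v).symm w) = Ψ v (χ.symm (χ w - v))
      rw [(Ψ v).apply_symm_apply, e1]
    rw [e2]
    exact ⟨hys, hχy⟩
  have hit : ∀ i, (conjF H Ψ (0, v))^[i] z = (Ψ v).symm (F^[i] z') := by
    intro i
    rw [conjF_iter]
    show (Ψ v).symm ((H 0)^[i] (Ψ v z)) = _
    rw [hzz', hHF]
  have hD8 : D < 1 / 8 := hDκ.trans_le hκ8
  have hsmall : ‖χ (F^[m] z') - v‖ < 1 / 4 := by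
    have := norm_nonneg (χ (F^[m] z') - v)
    linarith
  obtain ⟨b1, b2⟩ := hinv _ hret hsmall
  have hJ2 : ∀ i ∈ J, χ ((conjF H Ψ (0, v))^[i] z) = χ (F^[i] z') - v := by
    intro i hi
    obtain ⟨h1, -, -, h2⟩ := hJq i hi
    rw [hit]
    exact (hinv _ h1 (by linarith)).2
  refine hc (0, v) D m J ?_ hD (hDκ.trans_le hκ1) hm ?_ ?_ hJ ?_ ?_ ?_
  · rw [Prod.norm_def]
    exact max_lt (by simpa using hκ₁) (hz'κ.trans_le hκ1)
  · rw [hit]; exact b1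
  · rw [hit, b2]
    exact hclose
  · intro i hi
    obtain ⟨h1, h2, h3, h4⟩ := hJq i hi
    rw [hJ2 i hi, hit m, b2]
    exact ⟨h2, h3, h4⟩
  · rw [hit m, b2, Finset.prod_congr rfl (fun i hi => by rw [hJ2 i hi])]
    exact hprod.trans_le hκ1
  · intro i hi him hsrc hiJ
    rw [hit] at hsrc ⊢
    by_cases h4 : ‖χ ((Ψ v).symm (F^[i] z'))‖ < 1 / 4
    · obtain ⟨m1, m2⟩ := hΨ v hvκ2 _ hsrc h4
      rw [(Ψ v).apply_symm_apply] at m1 m2
      have := havoid i hi him m1 hiJ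
      rw [m2, add_sub_cancel_right] at this
      exact this
    · push Not at h4
      linarith

end Pool.Agent.K6.H72.IV
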