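import Pool.Agent.W564.SC.Lib

/-!
# Bump functions which vanish at given points
-/

set_option autoImplicit false

open scoped Manifold ContDiff Topology
open Filter Set Metric

namespace Pool.Agent.K6.H72.IV

open Pool.Agent.H718R2.G Pool.Agent.W564.SC

variable {n : ℕ}

/-- bounds of the derivatives of order at most `k` at `x`, at the scale `D` -/
def Bd (k : ℕ) (D M : ℝ) (x : V n) (g : V n → ℝ) : Prop :=
  ∀ j ≤ k, ‖iteratedFDeriv ℝ j g x‖ ≤ M * D⁻¹ ^ j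

lemma Bd.mul {k : ℕ} {D M M' : ℝ} (hD : 0 < D) (hM : 0 ≤ M) {x : V n} {f g : V n → ℝ}
    (hf : ContDiff ℝ ∞ f) (hg : ContDiff ℝ ∞ g) (h : Bd k D M x f) (h' : Bd k D M' x g) :
    Bd k D (2 ^ k * M * M') x (fun y => f y * g y) := by
  intro j hj
  have hM' : 0 ≤ M' := by
    have := (norm_nonneg _).trans (h' 0 (Nat.zero_le _))
    simpa using this
  have h1 := norm_iteratedFDeriv_mul_le (𝕜 := ℝ) (N := ∞) hf hg x (n := j) (by exact_mod_cast le_top)
  refine h1.trans ?_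
  have h2 : ∀ i ∈ Finset.range (j + 1), (j.choose i : ℝ) * ‖iteratedFDeriv ℝ i f x‖ *
      ‖iteratedFDeriv ℝ (j - i) g x‖ ≤ (j.choose i : ℝ) * (M * M' * D⁻¹ ^ j) := by
    intro i hi
    rw [Finset.mem_range] at hi
    have h3 := h i (by omega)
    have h4 := h' (j - i) (by omega)
    have h5 : D⁻¹ ^ j = D⁻¹ ^ i * D⁻¹ ^ (j - i) := by
      rw [← pow_add]
      congr 1
      omega
    rw [h5, mul_assoc]
    apply mul_le_mul_of_nonneg_left _ (Nat.cast_nonneg _)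
    calc ‖iteratedFDeriv ℝ i f x‖ * ‖iteratedFDeriv ℝ (j - i) g x‖
        ≤ (M * D⁻¹ ^ i) * (M' * D⁻¹ ^ (j - i)) :=
          mul_le_mul h3 h4 (norm_nonneg _) (by positivity)
      _ = M * M' * (D⁻¹ ^ i * D⁻¹ ^ (j - i)) := by ring
  refine (Finset.sum_le_sum h2).trans ?_
  rw [← Finset.sum_mul]
  have h6 : (∑ i ∈ Finset.range (j + 1), (j.choose i : ℝ)) = 2 ^ j := by
    have := Nat.sum_range_choose j
    exact_mod_cast this
  rw [h6]
  have h7 : (2 : ℝ) ^ j ≤ 2 ^ k := pow_le_pow_right₀ (by norm_num) hj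
  calc (2 : ℝ) ^ j * (M * M' * D⁻¹ ^ j) ≤ 2 ^ k * (M * M' * D⁻¹ ^ j) :=
        mul_le_mul_of_nonneg_right h7 (by positivity)
    _ = 2 ^ k * M * M' * D⁻¹ ^ j := by ring

lemma Bd.const_one {k : ℕ} {D : ℝ} (hD : 0 < D) (x : V n) : Bd k D 1 x (fun _ => (1 : ℝ)) := by
  intro j _
  rcases Nat.eq_zero_or_pos j with h | h
  · subst h
    simp
  · rw [iteratedFDeriv_const_of_ne (by omega)]
    simp
    positivity

/-- the affine function with value `0` at `q` and `1` at `w` -/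
noncomputable def aff (w q x : V n) : ℝ := (inner ℝ (w - q) x - inner ℝ (w - q) q) / ‖w - q‖ ^ 2

lemma aff_q (w q : V n) : aff w q q = 0 := by simp [aff]

lemma aff_w {w q : V n} (h : w ≠ q) : aff w q w = 1 := by
  have h1 : (‖w - q‖ : ℝ) ≠ 0 := norm_ne_zero_iff.2 (sub_ne_zero.2 h)
  have h2 : inner ℝ (w - q) w - inner ℝ (w - q) q = ‖w - q‖ ^ 2 := by
    rw [← inner_sub_right, real_inner_self_eq_norm_sq]
  rw [aff, h2]
  field_simp

lemma aff_smooth (w q : V n) : ContDiff ℝ ∞ (aff w q) :=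
  ((innerSL ℝ (w - q)).contDiff.sub contDiff_const).div_const _

lemma aff_fderiv (w q : V n) : fderiv ℝ (aff w q) = fun _ => (‖w - q‖ ^ 2)⁻¹ • innerSL ℝ (w - q) := by
  funext x
  have h1 : HasFDerivAt (fun x => inner ℝ (w - q) x) (innerSL ℝ (w - q)) x :=
    (innerSL ℝ (w - q)).hasFDerivAt
  have h2 : HasFDerivAt (aff w q) ((‖w - q‖ ^ 2)⁻¹ • innerSL ℝ (w - q)) x := by
    have h3 := (h1.sub_const (inner ℝ (w - q) q)).const_smul ((‖w - q‖ ^ 2)⁻¹)
    have h4 : aff w q = fun x => (‖w - q‖ ^ 2)⁻¹ • (inner ℝ (w - q) x - inner ℝ (w - q) q) := by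
      funext y
      rw [aff, smul_eq_mul, div_eq_inv_mul]
    rw [h4]
    exact h3
  exact h2.fderiv

lemma Bd.aff {k : ℕ} {D : ℝ} (hD : 0 < D) {w q x : V n} (hq0 : 0 < ‖q‖) (hwq : 2 * ‖w‖ ≤ ‖q‖)
    (hqD : ‖q‖ ≤ D) (hx : ‖x‖ ≤ D) : Bd k D (4 * (D / ‖q‖)) x (aff w q) := by
  have h1 : ‖q‖ / 2 ≤ ‖w - q‖ := by
    have := norm_sub_norm_le q w
    rw [norm_sub_rev] at this
    linarith
  have h0 : 0 < ‖w - q‖ := by linarith
  have hD' : 0 < D / ‖q‖ := by positivity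
  intro j _
  rcases Nat.lt_or_ge j 1 with hj | hj
  · have : j = 0 := by omega
    subst this
    rw [norm_iteratedFDeriv_zero, pow_zero, mul_one, Real.norm_eq_abs, IV.aff, ← inner_sub_right,
      abs_div, abs_of_pos (pow_pos h0 2)]
    have h2 := abs_real_inner_le_norm (w - q) (x - q)
    have h3 : ‖x - q‖ ≤ 2 * D := (norm_sub_le _ _).trans (by linarith)
    rw [div_le_iff₀ (pow_pos h0 2)]
    calc |inner ℝ (w - q) (x - q)| ≤ ‖w - q‖ * ‖x - q‖ := h2
      _ ≤ ‖w - q‖ * (2 * D) := mul_le_mul_of_nonneg_left h3 h0.le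
      _ = 4 * (D / ‖q‖) * (‖w - q‖ * (‖q‖ / 2)) := by field_simp; ring
      _ ≤ 4 * (D / ‖q‖) * ‖w - q‖ ^ 2 := by
        rw [sq]
        exact mul_le_mul_of_nonneg_left (mul_le_mul_of_nonneg_left h1 h0.le) (by positivity)
  · obtain ⟨i, rfl⟩ : ∃ i, j = i + 1 := ⟨j - 1, by omega⟩
    rw [← norm_iteratedFDeriv_fderiv, aff_fderiv]
    rcases Nat.eq_zero_or_pos i with hi | hi
    · subst hi
      rw [norm_iteratedFDeriv_zero, norm_smul, innerSL_apply_norm, norm_inv, norm_pow, norm_norm]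
      have e1 : (‖w - q‖ ^ 2)⁻¹ * ‖w - q‖ = ‖w - q‖⁻¹ := by field_simp
      rw [e1, zero_add, pow_one]
      calc ‖w - q‖⁻¹ ≤ (‖q‖ / 2)⁻¹ := inv_anti₀ (by positivity) h1
        _ = 2 * (D / ‖q‖) * D⁻¹ := by field_simp
        _ ≤ 4 * (D / ‖q‖) * D⁻¹ := by
          apply mul_le_mul_of_nonneg_right _ (by positivity)
          linarith
    · rw [iteratedFDeriv_const_of_ne (by omega)]
      simp
      positivity

set_option maxHeartbeats 2000000 in
/-- **Bump functions which vanish at given points.** -/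
theorem bumpI (n k : ℕ) : ∃ C : ℝ, 0 < C ∧ ∀ (D : ℝ), 0 < D → D ≤ 1 / 2 →
    ∀ w : V n, 4 * ‖w‖ ≤ D → ∀ (J : Finset ℕ) (q : ℕ → V n), J.card ≤ k →
    (∀ i ∈ J, 0 < ‖q i‖ ∧ 2 * ‖w‖ ≤ ‖q i‖ ∧ ‖q i‖ ≤ D) →
    ∃ u : V n → V n, Small n k (C * (‖w‖ / D ^ k * ∏ i ∈ J, (D / ‖q i‖))) u ∧ u w = -w ∧
      (∀ i ∈ J, u (q i) = 0) ∧ ∀ x, D ≤ ‖x‖ → u x = 0 := by
  let β : ContDiffBump (0 : V n) := ⟨1 / 4, 1 / 2, by norm_num, by norm_num⟩
  have hβs : ContDiff ℝ ∞ (β : V n → ℝ) := β.contDiff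
  have hβc : HasCompactSupport (β : V n → ℝ) := β.hasCompactSupport
  have hbd : ∀ j : ℕ, ∃ C : ℝ, ∀ x : V n, ‖iteratedFDeriv ℝ j (β : V n → ℝ) x‖ ≤ C := by
    intro j
    have hc : Continuous (iteratedFDeriv ℝ j (β : V n → ℝ)) :=
      hβs.continuous_iteratedFDeriv (by exact_mod_cast le_top)
    exact hc.bounded_above_of_compact_support (hβc.iteratedFDeriv j)
  choose C hC using hbd
  have hC0 : ∀ j, 0 ≤ C j := fun j => (norm_nonneg _).trans (hC j 0)
  obtain ⟨Cβ, hCβ0, hCβ⟩ : ∃ Cβ : ℝ, 0 < Cβ ∧ ∀ j ≤ k, C j ≤ Cβ := by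
    refine ⟨1 + ∑ j ∈ Finset.range (k + 1), C j, ?_, fun j hj => ?_⟩
    · have := Finset.sum_nonneg (fun j (_ : j ∈ Finset.range (k + 1)) => hC0 j)
      linarith
    · have := Finset.single_le_sum (fun i (_ : i ∈ Finset.range (k + 1)) => hC0 i)
        (Finset.mem_range.2 (Nat.lt_succ_of_le hj))
      linarith
  refine ⟨2 ^ k * Cβ * (2 ^ k * 4) ^ k, by positivity, ?_⟩
  intro D hD hD2 w hwD J q hJ hq
  have hw0 := norm_nonneg w
  -- the scaled bump function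
  set M : V n →L[ℝ] V n := D⁻¹ • ContinuousLinearMap.id ℝ (V n) with hM
  have hMx : ∀ x, M x = D⁻¹ • x := fun x => by simp [hM]
  have hnM : ‖M‖ ≤ D⁻¹ := by
    refine ContinuousLinearMap.opNorm_le_bound _ (inv_nonneg.2 hD.le) (fun x => ?_)
    rw [hMx, norm_smul, Real.norm_of_nonneg (inv_nonneg.2 hD.le)]
  have hnx : ∀ x : V n, ‖D⁻¹ • x‖ = ‖x‖ / D := fun x => by
    rw [norm_smul, Real.norm_of_nonneg (inv_nonneg.2 hD.le), div_eq_inv_mul]
  set b : V n → ℝ := (β : V n → ℝ) ∘ M with hb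
  have hbs : ContDiff ℝ ∞ b := hβs.comp M.contDiff
  have hbB : ∀ x, Bd k D Cβ x b := by
    intro x j hj
    rw [hb, M.iteratedFDeriv_comp_right hβs x (by exact_mod_cast le_top)]
    refine (ContinuousMultilinearMap.norm_compContinuousLinearMap_le _ _).trans ?_
    rw [Finset.prod_const, Finset.card_univ, Fintype.card_fin]
    exact mul_le_mul ((hC j _).trans (hCβ j hj)) (pow_le_pow_left₀ (norm_nonneg _) hnM j)
      (pow_nonneg (norm_nonneg _) _) hCβ0.le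
  have hb0 : ∀ x, D / 2 ≤ ‖x‖ → b x = 0 := by
    intro x hx
    show β (M x) = 0
    rw [hMx]
    apply β.zero_of_le_dist
    rw [dist_zero_right, hnx]
    show (1 / 2 : ℝ) ≤ _
    rw [le_div_iff₀ hD]
    linarith
  have hb1 : b w = 1 := by
    show β (M w) = 1
    rw [hMx]
    apply β.one_of_mem_closedBall
    rw [mem_closedBall, dist_zero_right, hnx]
    show _ ≤ (1 / 4 : ℝ)
    rw [div_le_iff₀ hD]
    linarith
  -- the product
  have hpb : ∀ J' : Finset ℕ, J' ⊆ J → ContDiff ℝ ∞ (fun x => ∏ i ∈ J', aff w (q i) x) ∧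
      ∀ x, ‖x‖ ≤ D → Bd k D (∏ i ∈ J', (2 ^ k * (4 * (D / ‖q i‖)))) x
        (fun x => ∏ i ∈ J', aff w (q i) x) := by
    intro J'
    induction J' using Finset.induction_on with
    | empty =>
      intro _
      refine ⟨by simpa using contDiff_const, fun x _ => ?_⟩
      simpa using Bd.const_one (k := k) hD x
    | insert a s ha ih =>
      intro hs
      obtain ⟨h1, h2⟩ := ih ((Finset.subset_insert a s).trans hs)
      obtain ⟨h3, h4, h5⟩ := hq a (hs (Finset.mem_insert_self a s))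
      have e1 : (fun x => ∏ i ∈ insert a s, aff w (q i) x) =
          fun x => aff w (q a) x * ∏ i ∈ s, aff w (q i) x := by
        funext x
        rw [Finset.prod_insert ha]
      rw [e1, Finset.prod_insert ha]
      refine ⟨(aff_smooth w (q a)).mul h1, fun x hx => ?_⟩
      exact Bd.mul hD (by positivity) (aff_smooth w (q a)) h1 (Bd.aff hD h3 h4 h5 hx) (h2 x hx)
  obtain ⟨hps, hpB⟩ := hpb J Finset.Subset.rfl
  set g : V n → ℝ := fun x => b x * ∏ i ∈ J, aff w (q i) x with hg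
  have hgs : ContDiff ℝ ∞ g := hbs.mul hps
  have hg0 : ∀ x, D / 2 ≤ ‖x‖ → g x = 0 := fun x hx => by rw [hg]; simp only; rw [hb0 x hx, zero_mul]
  obtain ⟨P, hP⟩ : ∃ P : ℝ, P = ∏ i ∈ J, (D / ‖q i‖) := ⟨_, rfl⟩
  rw [← hP]
  have hP0 : 0 < P := by
    rw [hP]
    exact Finset.prod_pos fun i hi => div_pos hD (hq i hi).1
  have hPP : ∏ i ∈ J, (2 ^ k * (4 * (D / ‖q i‖))) ≤ (2 ^ k * 4) ^ k * P := by
    have e1 : ∏ i ∈ J, (2 ^ k * (4 * (D / ‖q i‖))) = (2 ^ k * 4) ^ J.card * P := by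
      rw [hP, ← Finset.prod_const, ← Finset.prod_mul_distrib]
      refine Finset.prod_congr rfl fun i _ => by ring
    rw [e1]
    apply mul_le_mul_of_nonneg_right _ hP0.le
    apply pow_le_pow_right₀ _ hJ
    have : (1 : ℝ) ≤ 2 ^ k := one_le_pow₀ (by norm_num)
    linarith
  have hgB : ∀ x, Bd k D (2 ^ k * Cβ * ((2 ^ k * 4) ^ k * P)) x g := by
    intro x
    by_cases hx : ‖x‖ ≤ D
    · intro j hj
      refine (Bd.mul hD hCβ0.le hbs hps (hbB x) (hpB x hx) j hj).trans ?_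
      apply mul_le_mul_of_nonneg_right _ (by positivity)
      exact mul_le_mul_of_nonneg_left hPP (by positivity)
    · intro j _
      push Not at hx
      have h1 : g =ᶠ[𝓝 x] fun _ => (0 : ℝ) := by
        have h2 : ∀ᶠ y in 𝓝 x, D < ‖y‖ := continuous_norm.continuousAt.eventually (lt_mem_nhds hx)
        filter_upwards [h2] with y hy
        exact hg0 y (by linarith)
      have h3 : iteratedFDeriv ℝ j g x = iteratedFDeriv ℝ j (fun _ => (0 : ℝ)) x :=
        (h1.iteratedFDeriv ℝ j).self_of_nhds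
      rw [h3]
      have h4 : iteratedFDeriv ℝ j (fun _ : V n => (0 : ℝ)) x = 0 := by
        rw [iteratedFDeriv_zero_fun]
        rfl
      rw [h4, norm_zero]
      have h5 : 0 ≤ 2 ^ k * Cβ * ((2 ^ k * 4) ^ k * P) :=
        mul_nonneg (by positivity) (mul_nonneg (by positivity) hP0.le)
      exact mul_nonneg h5 (by positivity)
  set Lw : ℝ →L[ℝ] V n := (ContinuousLinearMap.id ℝ ℝ).smulRight (-w) with hLw
  have hLx : ∀ c, Lw c = -(c • w) := fun c => by simp [hLw]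
  have hnL : ‖Lw‖ ≤ ‖w‖ := by
    refine ContinuousLinearMap.opNorm_le_bound _ (norm_nonneg _) (fun c => ?_)
    rw [hLx, norm_neg, norm_smul, mul_comm]
  have hD1 : 1 ≤ D⁻¹ := by
    rw [one_le_inv₀ hD]; linarith
  refine ⟨Lw ∘ g, ⟨Lw.contDiff.comp hgs, ?_, ?_⟩, ?_, ?_, ?_⟩
  · intro x hx
    rw [Function.comp_apply, hg0 x (by linarith), hLx]
    simp
  · intro j hj x
    have h1 : ‖iteratedFDeriv ℝ j (Lw ∘ g) x‖ ≤ ‖Lw‖ * ‖iteratedFDeriv ℝ j g x‖ := by
      apply Lw.norm_iteratedFDeriv_comp_left (hgs.contDiffAt (x := x))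
      exact_mod_cast le_top
    have h3 : (D⁻¹) ^ j ≤ (D⁻¹) ^ k := pow_le_pow_right₀ hD1 hj
    calc ‖iteratedFDeriv ℝ j (Lw ∘ g) x‖
        ≤ ‖Lw‖ * ‖iteratedFDeriv ℝ j g x‖ := h1
      _ ≤ ‖w‖ * (2 ^ k * Cβ * ((2 ^ k * 4) ^ k * P) * (D⁻¹) ^ k) := by
          apply mul_le_mul hnL ((hgB x j hj).trans ?_) (norm_nonneg _) (norm_nonneg _)
          exact mul_le_mul_of_nonneg_left h3 (by positivity)
      _ = 2 ^ k * Cβ * (2 ^ k * 4) ^ k * (‖w‖ / D ^ k * P) := by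
          rw [inv_pow, div_eq_mul_inv]; ring
  · have h1 : ∏ i ∈ J, aff w (q i) w = 1 := by
      refine Finset.prod_eq_one fun i hi => aff_w ?_
      obtain ⟨h3, h4, -⟩ := hq i hi
      intro h5
      rw [h5] at h4
      linarith
    rw [Function.comp_apply, hg]
    simp only
    rw [hb1, h1, hLx]
    simp
  · intro i hi
    have h1 : ∏ i' ∈ J, aff w (q i') (q i) = 0 := Finset.prod_eq_zero hi (aff_q w (q i))
    rw [Function.comp_apply, hg]
    simp only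
    rw [h1, mul_zero, hLx]
    simp
  · intro x hx
    rw [Function.comp_apply, hg0 x (by linarith), hLx]
    simp

end Pool.Agent.K6.H72.IV
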