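import Pool.Agent.K6.H72.IV.Abs
import Pool.Agent.K6.H72.IV.Cli
import Pool.Agent.Y368.GG.Main
import Pool.Agent.Y504.CO.KSG

/-!
# Points which cannot be closed: lower bounds, uniform in `r`, for the number of the visits
-/

set_option autoImplicit false

open scoped Manifold ContDiff Topology
open Filter Set Metric

universe u

namespace Pool.Agent.K6.H72.IV

open Pool.Agent.H718R2.G Pool.Agent.W564.SC Pool.Agent.TH80.OMS Pool.Agent.Y504.CO.KSG
open Pool.Agent.K6.H72.FV (visits)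

/-- Near `z`, an orbit segment of `f` which returns with displacement `δ` (in the chart `χ`) visits every
neighbourhood `W` of `z` at least `c (log (1/δ))^(1/x) - 1` times. -/
def ManyVisits {n : ℕ} {N : Type u} [TopologicalSpace N] [ChartedSpace (V n) N]
    (x : ℝ) (f : N → N) (χ : OpenPartialHomeomorph N (V n)) (z : N) : Prop :=
  ∀ W ∈ 𝓝 z, ∃ W' ∈ 𝓝 z, W' ⊆ χ.source ∧ ∃ C : ℝ, 0 < C ∧
    ∀ (w : N) (T : ℕ), w ∈ W' → 1 ≤ T → f^[T] w ∈ W' →
      Real.exp (-(C * ((visits f W w T : ℝ) + 1) ^ x)) ≤ ‖χ (f^[T] w) - χ w‖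

/-- `x > 0` and `2^(-x) + 3^(-x) + ⋯ + (k + 1)^(-x) < 1` for all integers `k ≤ r`. -/
def Admissible (r : ℕ∞) (x : ℝ) : Prop :=
  0 < x ∧ ∀ k : ℕ, (k : ℕ∞) ≤ r → ∑ j ∈ Finset.range k, ((j : ℝ) + 2) ^ (-x) < 1

lemma admissible_two (r : ℕ∞) : Admissible r 2 := by
  refine ⟨by norm_num, fun k _ => ?_⟩
  have h : ∀ k : ℕ, ∑ j ∈ Finset.range k, ((j : ℝ) + 2) ^ (-2 : ℝ) ≤ 1 - 1 / ((k : ℝ) + 1) := by
    intro k
    induction k with
    | zero => simp
    | succ k ih =>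
      rw [Finset.sum_range_succ]
      have h1 : ((k : ℝ) + 2) ^ (-2 : ℝ) = 1 / ((k : ℝ) + 2) ^ 2 := by
        rw [Real.rpow_neg (by positivity), one_div]
        congr 1
        exact_mod_cast Real.rpow_natCast ((k : ℝ) + 2) 2
      have h2 : 1 / ((k : ℝ) + 2) ^ 2 ≤ 1 / ((k : ℝ) + 1) - 1 / ((k : ℝ) + 1 + 1) := by
        rw [div_sub_div _ _ (by positivity) (by positivity), div_le_div_iff₀ (by positivity)
          (by positivity)]
        nlinarith [(Nat.cast_nonneg k : (0 : ℝ) ≤ k)]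
      push_cast
      rw [h1]
      linarith
  have h1 := h k
  have h2 : 0 < 1 / ((k : ℝ) + 1) := by positivity
  linarith

lemma rpow_bound {a b : ℝ} (hb : 0 < b) (h : b ^ 5 < a ^ 4) (ha : 0 < a) :
    a ^ (-(4 / 5) : ℝ) < 1 / b := by
  have h1 : b < a ^ (4 / 5 : ℝ) := by
    have h2 : (a ^ (4 / 5 : ℝ)) ^ 5 = a ^ 4 := by
      rw [← Real.rpow_natCast, ← Real.rpow_mul ha.le]
      norm_num
    by_contra hc
    push Not at hc
    have h3 := pow_le_pow_left₀ (by positivity) hc 5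
    rw [h2] at h3
    linarith
  rw [Real.rpow_neg ha.le, one_div]
  exact inv_strictAnti₀ hb h1

lemma admissible_four_fifths {r : ℕ∞} (hr : r ≤ 2) : Admissible r (4 / 5) := by
  refine ⟨by norm_num, fun k hk => ?_⟩
  have hk2 : k ≤ 2 := by exact_mod_cast hk.trans hr
  have a1 : (2 : ℝ) ^ (-(4 / 5) : ℝ) < 1 / 1.74 := rpow_bound (by norm_num) (by norm_num) (by norm_num)
  have a2 : (3 : ℝ) ^ (-(4 / 5) : ℝ) < 1 / 2.4 := rpow_bound (by norm_num) (by norm_num) (by norm_num)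
  interval_cases k
  · simp
  · simp only [Finset.sum_range_one, Nat.cast_zero, zero_add]
    linarith [show (1 : ℝ) / 1.74 < 1 by norm_num]
  · rw [Finset.sum_range_succ, Finset.sum_range_one]
    simp only [Nat.cast_zero, zero_add, Nat.cast_one]
    have e : (1 : ℝ) + 2 = 3 := by norm_num
    rw [e]
    linarith [show (1 : ℝ) / 1.74 + 1 / 2.4 < 1 by norm_num]

section
variable {n : ℕ} {N : Type u} [TopologicalSpace N] [T2Space N] [CompactSpace N]
  [ChartedSpace (V n) N] [IsManifold (𝓡 n) ∞ N]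

theorem dichotomy {r : ℕ∞} (hr : 1 ≤ r) {x : ℝ} (hx : Admissible r x) (f : DiffM n N r) (z : N)
    (χ : OpenPartialHomeomorph N (V n)) (hχ : GoodChart n N χ z) :
    Closable n N r f z ∨ ManyVisits x f χ z := by
  by_cases hcl : Closable n N r f z
  · exact Or.inl hcl
  right
  unfold Closable at hcl
  push Not at hcl
  obtain ⟨U, hU, hfU, hno⟩ := hcl
  obtain ⟨k, hk1, hk, κ, hκ, hcl⟩ := cli (n := n) (N := N) r hr f χ z hχ U hU hfU
  set κ' := min κ 1 with hκ'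
  have hκ'0 : 0 < κ' := lt_min hκ one_pos
  have hκ'1 : κ' ≤ 1 := min_le_right _ _
  have hκ'κ : κ' ≤ κ := min_le_left _ _
  have hstar : Star f χ.source χ k κ' := by
    intro w D T J hw hwn hD hDκ hT hTS h4 hJ hJq hprod
    by_contra hnot
    push Not at hnot
    obtain ⟨G, hG, hGz⟩ := hcl w D T J hw (hwn.trans_le hκ'κ) hD (hDκ.trans_le hκ'κ) hT hTS h4 hJ
      hJq (hprod.trans_le hκ'κ) (fun i hi hiT hiS hiJ => hnot i hi hiT hiS hiJ)
    exact hno G hG hGz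
  intro W hW
  have hcont : ContinuousAt χ z := χ.continuousAt hχ.src
  obtain ⟨ε0, hε0, hball⟩ : ∃ ε0 : ℝ, 0 < ε0 ∧ ∀ y ∈ χ.source, ‖χ y‖ < ε0 → y ∈ W := by
    have h2 : ContinuousAt χ.symm (χ z) := χ.continuousAt_symm (χ.map_source hχ.src)
    have h3 : ∀ᶠ v in 𝓝 (χ z), χ.symm v ∈ W := by
      apply h2.eventually_mem
      rw [χ.left_inv hχ.src]
      exact hW
    rw [hχ.zero] at h3
    obtain ⟨ε, hε, h4⟩ := Metric.eventually_nhds_iff.1 h3
    refine ⟨ε, hε, fun y hy hn => ?_⟩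
    have := h4 (y := χ y) (by rw [dist_zero_right]; exact hn)
    rwa [χ.left_inv hy] at this
  set ε := min ε0 κ' with hε
  have hεpos : 0 < ε := lt_min hε0 hκ'0
  have hεκ : ε ≤ κ' := min_le_right _ _
  obtain ⟨C, hC, hlow⟩ := lower_bound (F := f) (S := χ.source) (W := W) (χ := χ) hk1 hκ'1 hεpos
    hεκ (fun y hy hn => hball y hy (hn.trans_le (min_le_left _ _))) hstar hx.1 (hx.2 k hk)
  refine ⟨{y : N | y ∈ χ.source ∧ ‖χ y‖ < ε / 2}, ?_, fun y hy => hy.1, C, hC, ?_⟩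
  · have h5 : χ.source ∈ 𝓝 z := χ.open_source.mem_nhds hχ.src
    have h7 : ∀ᶠ y in 𝓝 z, ‖χ y‖ < ε / 2 := by
      have h8 := hcont.tendsto.norm
      rw [hχ.zero, norm_zero] at h8
      exact h8.eventually (gt_mem_nhds (half_pos hεpos))
    filter_upwards [h5, h7] with y hy1 hy2
    exact ⟨hy1, hy2⟩
  · intro w T hw hT hTw
    exact hlow w T hw.1 hw.2 hT hTw.1

/-- Returns with few visits close: if near `z` there are returns with displacements `δ → 0` and
`v` visits of a neighbourhood of `z`, `(v + 1)^x / log (1/δ) → 0`, then `f` can be closed at `z`. -/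
theorem closable_of_few {r : ℕ∞} (hr : 1 ≤ r) {x : ℝ} (hx : Admissible r x) (f : DiffM n N r) (z : N)
    (χ : OpenPartialHomeomorph N (V n)) (hχ : GoodChart n N χ z) (W : Set N) (hW : W ∈ 𝓝 z)
    (h : ∀ V ∈ 𝓝 z, ∀ C : ℝ, ∃ w ∈ V, ∃ T : ℕ, 1 ≤ T ∧ f^[T] w ∈ V ∧
      ‖χ (f^[T] w) - χ w‖ < Real.exp (-(C * ((visits f W w T : ℝ) + 1) ^ x))) :
    Closable n N r f z := by
  refine (dichotomy hr hx f z χ hχ).resolve_right ?_
  intro hmany
  obtain ⟨W', hW', -, C, hC, hlow⟩ := hmany W hW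
  obtain ⟨w, hw, T, hT, hTw, hlt⟩ := h W' hW' C
  exact absurd (hlow w T hw hT hTw) (not_le.2 hlt)

end

theorem generic {n : ℕ} {N : Type u} [MetricSpace N] [CompactSpace N]
    [ChartedSpace (V n) N] [IsManifold (𝓡 n) ∞ N] (r : ℕ∞) (hr : 1 ≤ r) :
    BaireSet n N r {f | ∀ x : ℝ, Admissible r x → ∀ (z : N) (χ : OpenPartialHomeomorph N (V n)),
      GoodChart n N χ z → z ∉ closure (Per f) → ManyVisits x f χ z} := by
  obtain ⟨R, h1, h2, h3⟩ := Pool.Agent.Y368.GG.generic_closable (n := n) (N := N) r hr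
  exact ⟨R, h1, h2, fun f hf x hx z χ hχ hz =>
    (dichotomy hr hx f z χ hχ).resolve_left fun h => hz (h3 f hf z h)⟩

end Pool.Agent.K6.H72.IV
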